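import Pool.Agent.Helper68.LM2.St

set_option autoImplicit false

open MeasureTheory Set Filter Topology
open scoped ENNReal RealInnerProductSpace

namespace Pool.Agent.Helper79.LM2

open Pool.Agent.Helper68.LM2 Pool.Agent.Helper68.LM

/-- telescoping bound for the mass of a finite set of indices `≥ a` -/
theorem near_tel (τ : ℕ → ℝ) (m₀ : ℕ) (hS : Seq τ m₀) (A : Finset ℕ) (a : ℕ)
    (hA : ∀ n ∈ A, a ≤ n) : ∑ n ∈ A, 2 * (τ n - τ (n + 1)) ≤ 2 * τ a := by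
  obtain ⟨hanti, hpos, -, -⟩ := hS
  obtain ⟨N, hN⟩ : ∃ N, ∀ n ∈ A, n < N := ⟨A.sup id + 1, fun n hn =>
    Nat.lt_succ_of_le (Finset.le_sup (f := id) hn)⟩
  have hsub : A ⊆ Finset.Ico a (max a N) := by
    intro n hn
    rw [Finset.mem_Ico]
    exact ⟨hA n hn, lt_max_of_lt_right (hN n hn)⟩
  have h1 : ∑ n ∈ A, 2 * (τ n - τ (n + 1)) ≤
      ∑ n ∈ Finset.Ico a (max a N), 2 * (τ n - τ (n + 1)) := by
    apply Finset.sum_le_sum_of_subset_of_nonneg hsub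
    intro n _ _
    have := hanti (Nat.lt_succ_self n)
    simp only [Nat.succ_eq_add_one] at this
    linarith
  have h2 : ∀ M, a ≤ M → ∑ n ∈ Finset.Ico a M, 2 * (τ n - τ (n + 1)) = 2 * (τ a - τ M) := by
    intro M hM
    induction M, hM using Nat.le_induction with
    | base => simp
    | succ M hM ih =>
      rw [Finset.sum_Ico_succ_top hM, ih]
      ring
  rw [h2 _ (le_max_left _ _)] at h1
  have := hpos (max a N)
  linarith

theorem near_wt_nonneg (τ : ℕ → ℝ) (m₀ : ℕ) (hS : Seq τ m₀) (S : Finset ℕ) (j : ℕ) :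
    0 ≤ wt τ S j := by
  unfold wt
  apply Finset.sum_nonneg
  intro n _
  have := hS.1 (Nat.lt_succ_self n)
  simp only [Nat.succ_eq_add_one] at this
  linarith

theorem near_wt (τ : ℕ → ℝ) (m₀ : ℕ) (hS : Seq τ m₀) (Nm r j : ℕ) :
    wt τ (nearS τ Nm r) j ≤ 2 * min (τ j) ((2⁻¹ : ℝ) ^ r) := by
  have hb1 : wt τ (nearS τ Nm r) j ≤ 2 * τ j := by
    unfold wt
    apply near_tel τ m₀ hS
    intro n hn
    exact (Finset.mem_filter.1 hn).2
  have hb2 : wt τ (nearS τ Nm r) j ≤ 2 * (2⁻¹ : ℝ) ^ r := by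
    unfold wt
    by_cases hne : ((nearS τ Nm r).filter (fun n => j ≤ n)).Nonempty
    · have hmin := Finset.min'_mem _ hne
      have h1 := near_tel τ m₀ hS ((nearS τ Nm r).filter (fun n => j ≤ n))
        (((nearS τ Nm r).filter (fun n => j ≤ n)).min' hne)
        (fun n hn => Finset.min'_le _ _ hn)
      have h2 := (Finset.mem_filter.1 hmin).1
      have h3 : τ (((nearS τ Nm r).filter (fun n => j ≤ n)).min' hne) ≤ (2⁻¹ : ℝ) ^ r :=
        (Finset.mem_filter.1 h2).2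
      linarith
    · rw [Finset.not_nonempty_iff_eq_empty] at hne
      rw [hne]
      simp only [Finset.sum_empty]
      positivity
  rcases le_total (τ j) ((2⁻¹ : ℝ) ^ r) with h | h
  · rw [min_eq_left h]; exact hb1
  · rw [min_eq_right h]; exact hb2

/-- the potential -/
noncomputable def nphi (ε x : ℝ) : ℝ :=
  (1 - (2 : ℝ) ^ (-ε))⁻¹ * (min 1 (x / 2)) ^ ε +
    (1 - (2 : ℝ) ^ (ε - 1))⁻¹ * (1 - (max 1 x) ^ (ε - 1))

theorem near_ab (ε : ℝ) (h0 : 0 < ε) (h1 : ε < 1) :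
    0 < 1 - (2 : ℝ) ^ (-ε) ∧ 0 < 1 - (2 : ℝ) ^ (ε - 1) := by
  constructor
  · have := Real.rpow_lt_one_of_one_lt_of_neg (x := 2) (z := -ε) (by norm_num) (by linarith)
    linarith
  · have := Real.rpow_lt_one_of_one_lt_of_neg (x := 2) (z := ε - 1) (by norm_num) (by linarith)
    linarith

theorem near_step (ε x : ℝ) (h0 : 0 < ε) (h1 : ε < 1) (hx : 0 < x) :
    min 1 x⁻¹ * x ^ ε ≤ nphi ε (2 * x) - nphi ε x := by
  obtain ⟨hA, hB⟩ := near_ab ε h0 h1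
  unfold nphi
  rcases le_or_gt x 1 with hle | hgt
  · have hm1 : min 1 x⁻¹ = 1 := min_eq_left ((one_le_inv₀ hx).2 hle)
    have hm2 : min 1 (2 * x / 2) = x := by
      rw [show 2 * x / 2 = x by ring]; exact min_eq_right hle
    have hm3 : min 1 (x / 2) = x / 2 := min_eq_right (by linarith)
    have hm4 : max 1 x = 1 := max_eq_left hle
    rw [hm1, hm2, hm3, hm4]
    have hd : (x / 2) ^ ε = x ^ ε * (2 : ℝ) ^ (-ε) := by
      rw [Real.div_rpow hx.le (by norm_num), Real.rpow_neg (by norm_num)]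
      rfl
    have hmx : (max 1 (2 * x)) ^ (ε - 1) ≤ 1 :=
      Real.rpow_le_one_of_one_le_of_nonpos (le_max_left _ _) (by linarith)
    have hone : (1 : ℝ) ^ (ε - 1) = 1 := Real.one_rpow _
    rw [hd, hone]
    have e1 : (1 - (2 : ℝ) ^ (-ε))⁻¹ * x ^ ε - (1 - (2 : ℝ) ^ (-ε))⁻¹ * (x ^ ε * (2 : ℝ) ^ (-ε)) =
        x ^ ε := by
      field_simp
    have e2 : 0 ≤ (1 - (2 : ℝ) ^ (ε - 1))⁻¹ * (1 - (max 1 (2 * x)) ^ (ε - 1)) :=
      mul_nonneg (inv_nonneg.2 hB.le) (by linarith)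
    linarith
  · have hm1 : min 1 x⁻¹ = x⁻¹ := min_eq_right (inv_le_one_of_one_le₀ hgt.le)
    have hm2 : min 1 (2 * x / 2) = 1 := by
      rw [show 2 * x / 2 = x by ring]; exact min_eq_left hgt.le
    have hm4 : max 1 x = x := max_eq_right hgt.le
    have hm5 : max 1 (2 * x) = 2 * x := max_eq_right (by linarith)
    rw [hm1, hm2, hm4, hm5]
    have hd : (2 * x) ^ (ε - 1) = (2 : ℝ) ^ (ε - 1) * x ^ (ε - 1) :=
      Real.mul_rpow (by norm_num) hx.le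
    have hx1 : x⁻¹ * x ^ ε = x ^ (ε - 1) := by
      rw [Real.rpow_sub hx, Real.rpow_one]
      field_simp
    have hmn : (min 1 (x / 2)) ^ ε ≤ 1 :=
      Real.rpow_le_one (le_min (by norm_num) (by positivity)) (min_le_left _ _) h0.le
    have hone : (1 : ℝ) ^ ε = 1 := Real.one_rpow _
    rw [hd, hx1, hone]
    have e1 : (1 - (2 : ℝ) ^ (ε - 1))⁻¹ * (1 - (2 : ℝ) ^ (ε - 1) * x ^ (ε - 1)) -
        (1 - (2 : ℝ) ^ (ε - 1))⁻¹ * (1 - x ^ (ε - 1)) = x ^ (ε - 1) := by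
      field_simp
      ring
    have e2 : 0 ≤ (1 - (2 : ℝ) ^ (-ε))⁻¹ * (1 - (min 1 (x / 2)) ^ ε) :=
      mul_nonneg (inv_nonneg.2 hA.le) (by linarith)
    linarith

theorem near_phi_bd (ε x : ℝ) (h0 : 0 < ε) (h1 : ε < 1) (hx : 0 < x) :
    0 ≤ nphi ε x ∧ nphi ε x ≤ (1 - (2 : ℝ) ^ (-ε))⁻¹ + (1 - (2 : ℝ) ^ (ε - 1))⁻¹ := by
  obtain ⟨hA, hB⟩ := near_ab ε h0 h1
  have hmn : (min 1 (x / 2)) ^ ε ≤ 1 :=
    Real.rpow_le_one (le_min (by norm_num) (by positivity)) (min_le_left _ _) h0.le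
  have hmn0 : 0 ≤ (min 1 (x / 2)) ^ ε :=
    Real.rpow_nonneg (le_min (by norm_num) (by positivity)) _
  have hmx : (max 1 x) ^ (ε - 1) ≤ 1 :=
    Real.rpow_le_one_of_one_le_of_nonpos (le_max_left _ _) (by linarith)
  have hmx0 : 0 ≤ (max 1 x) ^ (ε - 1) :=
    Real.rpow_nonneg (le_trans (by norm_num) (le_max_left _ _)) _
  have hA' := inv_nonneg.2 hA.le
  have hB' := inv_nonneg.2 hB.le
  unfold nphi
  constructor
  · exact add_nonneg (mul_nonneg hA' hmn0) (mul_nonneg hB' (by linarith))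
  · exact add_le_add (mul_le_of_le_one_right hA' hmn) (mul_le_of_le_one_right hB' (by linarith))

theorem near_sum (ε t : ℝ) (h0 : 0 < ε) (h1 : ε < 1) (ht : 0 < t) (N : ℕ) :
    ∑ r ∈ Finset.range N, 2 * min t ((2⁻¹ : ℝ) ^ r) * (2 ^ r * t) ^ ε ≤
      2 * ((1 - (2 : ℝ) ^ (-ε))⁻¹ + (1 - (2 : ℝ) ^ (ε - 1))⁻¹) * t := by
  have key : ∑ r ∈ Finset.range N, min 1 (2 ^ r * t)⁻¹ * (2 ^ r * t) ^ ε ≤
      nphi ε (2 ^ N * t) - nphi ε t := by
    induction N with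
    | zero => simp
    | succ N ih =>
      rw [Finset.sum_range_succ]
      have hs := near_step ε (2 ^ N * t) h0 h1 (by positivity)
      rw [show 2 * (2 ^ N * t) = 2 ^ (N + 1) * t by ring] at hs
      linarith
  have e : ∀ r ∈ Finset.range N, 2 * min t ((2⁻¹ : ℝ) ^ r) * (2 ^ r * t) ^ ε =
      2 * t * (min 1 (2 ^ r * t)⁻¹ * (2 ^ r * t) ^ ε) := by
    intro r _
    have : min t ((2⁻¹ : ℝ) ^ r) = t * min 1 (2 ^ r * t)⁻¹ := by
      rw [mul_min_of_nonneg _ _ ht.le, mul_one]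
      congr 1
      rw [inv_pow]
      field_simp
    rw [this]
    ring
  rw [Finset.sum_congr rfl e, ← Finset.mul_sum]
  have b1 := (near_phi_bd ε (2 ^ N * t) h0 h1 (by positivity)).2
  have b0 := (near_phi_bd ε t h0 h1 ht).1
  have : ∑ r ∈ Finset.range N, min 1 (2 ^ r * t)⁻¹ * (2 ^ r * t) ^ ε ≤
      (1 - (2 : ℝ) ^ (-ε))⁻¹ + (1 - (2 : ℝ) ^ (ε - 1))⁻¹ := by linarith
  calc 2 * t * ∑ r ∈ Finset.range N, min 1 (2 ^ r * t)⁻¹ * (2 ^ r * t) ^ ε ≤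
      2 * t * ((1 - (2 : ℝ) ^ (-ε))⁻¹ + (1 - (2 : ℝ) ^ (ε - 1))⁻¹) :=
        mul_le_mul_of_nonneg_left this (by positivity)
    _ = _ := by ring

theorem near_BR (hEB : StEB) (g : ℝ × ℝ → ℝ) (hg : BR g) (lam : ℝ) (r : ℕ) :
    BR (Lv g lam r) := by
  have hm := hg.1
  have hset : MeasurableSet {z : ℝ × ℝ | g z ≤ 2 ^ r * lam ∧ (r ≠ 0 → 2 ^ r * lam / 2 < g z)} := by
    by_cases hr : r = 0
    · have : {z : ℝ × ℝ | g z ≤ 2 ^ r * lam ∧ (r ≠ 0 → 2 ^ r * lam / 2 < g z)} =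
          {z | g z ≤ 2 ^ r * lam} := by
        ext z; simp [hr]
      rw [this]
      exact measurableSet_le hm measurable_const
    · have : {z : ℝ × ℝ | g z ≤ 2 ^ r * lam ∧ (r ≠ 0 → 2 ^ r * lam / 2 < g z)} =
          {z | g z ≤ 2 ^ r * lam} ∩ {z | 2 ^ r * lam / 2 < g z} := by
        ext z; simp [hr]
      rw [this]
      exact (measurableSet_le hm measurable_const).inter (measurableSet_lt measurable_const hm)
  have h3 := hEB.2.2.1 g _ hg hset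
  have : Lv g lam r =
      ({z : ℝ × ℝ | g z ≤ 2 ^ r * lam ∧ (r ≠ 0 → 2 ^ r * lam / 2 < g z)}).indicator g := by
    classical
    ext z
    unfold Lv
    rw [Set.indicator_apply]
    simp only [Set.mem_setOf_eq]
  rw [this]
  exact h3

theorem near_cheb (F : ℝ × ℝ → ℝ) (hF : Measurable F) (lam : ℝ) (hl : 0 < lam) (v : ℝ × ℝ) :
    volume {z : ℝ × ℝ | lam < |F (z - v)|} ≤
      (ENNReal.ofReal (lam ^ 2))⁻¹ * ∫⁻ z, ‖F z‖ₑ ^ 2 := by
  have hmeas : Measurable (fun z : ℝ × ℝ => ‖F (z - v)‖ₑ ^ 2) :=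
    ((hF.comp (measurable_id.sub_const v)).enorm).pow_const 2
  have h1 := mul_meas_ge_le_lintegral (μ := (volume : Measure (ℝ × ℝ))) hmeas
    (ENNReal.ofReal (lam ^ 2))
  have h2 : ∫⁻ z : ℝ × ℝ, ‖F (z - v)‖ₑ ^ 2 = ∫⁻ z, ‖F z‖ₑ ^ 2 :=
    lintegral_sub_right_eq_self (fun z => ‖F z‖ₑ ^ 2) v
  rw [h2] at h1
  have hsub : {z : ℝ × ℝ | lam < |F (z - v)|} ⊆
      {z | ENNReal.ofReal (lam ^ 2) ≤ ‖F (z - v)‖ₑ ^ 2} := by
    intro z hz
    simp only [Set.mem_setOf_eq] at hz ⊢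
    rw [Real.enorm_eq_ofReal_abs, ← ENNReal.ofReal_pow (abs_nonneg _)]
    apply ENNReal.ofReal_le_ofReal
    exact pow_le_pow_left₀ hl.le hz.le 2
  have hpos : ENNReal.ofReal (lam ^ 2) ≠ 0 := by
    rw [Ne, ENNReal.ofReal_eq_zero, not_le]; positivity
  rw [← ENNReal.div_eq_inv_mul, ENNReal.le_div_iff_mul_le (Or.inl hpos)
    (Or.inl ENNReal.ofReal_ne_top), mul_comm]
  exact (mul_le_mul_right (measure_mono hsub) _).trans h1

theorem hNEAR (hEB : StEB) (hRHO : StRHO) (hLL : StLL) : StNEAR := by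
  intro ε h0 h1
  obtain ⟨hA, hB⟩ := near_ab ε h0 h1
  set K : ℝ := (1 - (2 : ℝ) ^ (-ε))⁻¹ + (1 - (2 : ℝ) ^ (ε - 1))⁻¹ with hK
  have hKpos : 0 < K := add_pos (inv_pos.2 hA) (inv_pos.2 hB)
  refine ⟨4 * K, by positivity, ?_⟩
  intro τ m₀ hS Nm R g lam P hg hg0 hl
  have hτ := hS.2.1
  have hLvBR : ∀ r, BR (Lv g lam r) := fun r => near_BR hEB g hg lam r
  have hrho := hRHO τ m₀ hS
  have hVc : ∀ (n : ℕ) (k : ℤ) (r : ℕ), Measurable (Vc τ m₀ k n (Lv g lam r)) := fun n k r =>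
    ((hrho.2.2.2.2.2.2.2.1 n k _ (hLvBR r)).2).1
  have hω : ∀ r j : ℕ, 0 < ((2 : ℝ) ^ r * τ j) ^ ε := fun r j => by
    have := hτ j
    positivity
  have hLL' := hLL τ m₀ hS Nm (R + 1) (fun r => nearS τ Nm r) (fun r => Lv g lam r)
    (fun r j => ((2 : ℝ) ^ r * τ j) ^ ε)
    (fun r => by intro n hn; exact (Finset.mem_filter.1 hn).1) hLvBR hω
  set I : ℕ → ℝ := fun r => ∫ z, Lv g lam r z ^ 2 with hI
  have hI0 : ∀ r, 0 ≤ I r := fun r => integral_nonneg (fun z => by positivity)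
  have hLv0 : ∀ r z, 0 ≤ Lv g lam r z := by
    intro r z
    unfold Lv
    split_ifs
    · exact hg0 z
    · exact le_refl _
  have hIle : ∀ r, ENNReal.ofReal (I r) ≤ ∫⁻ z, ENNReal.ofReal (Lv g lam r z) ^ 2 := by
    intro r
    rw [hI]
    simp only
    rw [integral_eq_lintegral_of_nonneg_ae (Eventually.of_forall (fun z => by positivity))
      ((hLvBR r).1.pow_const 2).aestronglyMeasurable]
    refine ENNReal.ofReal_toReal_le.trans (le_of_eq ?_)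
    apply lintegral_congr
    intro z
    rw [ENNReal.ofReal_pow (hLv0 r z)]
  -- the weights
  have hW0 : ∀ r j, 0 ≤ wt τ (nearS τ Nm r) j := fun r j => near_wt_nonneg τ m₀ hS _ _
  set T : ℝ := ∑ r ∈ Finset.range (R + 1), (4 * K * ∑ j ∈ Finset.range Nm,
    τ j * (min (τ j) ((2⁻¹ : ℝ) ^ r) * (2 ^ r * τ j) ^ (-ε))) * I r with hT
  have hbound : ∑ j ∈ Finset.range Nm,
      (∑ r ∈ Finset.range (R + 1), wt τ (nearS τ Nm r) j * ((2 : ℝ) ^ r * τ j) ^ ε) *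
        ∑ r ∈ Finset.range (R + 1), wt τ (nearS τ Nm r) j * (((2 : ℝ) ^ r * τ j) ^ ε)⁻¹ * I r ≤
      T := by
    have hstep : ∀ j ∈ Finset.range Nm,
        (∑ r ∈ Finset.range (R + 1), wt τ (nearS τ Nm r) j * ((2 : ℝ) ^ r * τ j) ^ ε) *
        ∑ r ∈ Finset.range (R + 1), wt τ (nearS τ Nm r) j * (((2 : ℝ) ^ r * τ j) ^ ε)⁻¹ * I r ≤
        ∑ r ∈ Finset.range (R + 1), (4 * K * (τ j * (min (τ j) ((2⁻¹ : ℝ) ^ r) *
          (2 ^ r * τ j) ^ (-ε)))) * I r := by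
      intro j _
      have hj := hτ j
      have a1 : ∑ r ∈ Finset.range (R + 1), wt τ (nearS τ Nm r) j * ((2 : ℝ) ^ r * τ j) ^ ε ≤
          2 * K * τ j := by
        refine le_trans (Finset.sum_le_sum (fun r _ => ?_)) (near_sum ε (τ j) h0 h1 hj (R + 1))
        exact mul_le_mul_of_nonneg_right (near_wt τ m₀ hS Nm r j) (hω r j).le
      have a2 : ∑ r ∈ Finset.range (R + 1),
          wt τ (nearS τ Nm r) j * (((2 : ℝ) ^ r * τ j) ^ ε)⁻¹ * I r ≤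
          ∑ r ∈ Finset.range (R + 1), 2 * min (τ j) ((2⁻¹ : ℝ) ^ r) * (2 ^ r * τ j) ^ (-ε) * I r := by
        refine Finset.sum_le_sum (fun r _ => ?_)
        rw [← Real.rpow_neg (by positivity)]
        refine mul_le_mul_of_nonneg_right ?_ (hI0 r)
        exact mul_le_mul_of_nonneg_right (near_wt τ m₀ hS Nm r j) (by positivity)
      have a2' : 0 ≤ ∑ r ∈ Finset.range (R + 1),
          wt τ (nearS τ Nm r) j * (((2 : ℝ) ^ r * τ j) ^ ε)⁻¹ * I r :=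
        Finset.sum_nonneg (fun r _ => mul_nonneg (mul_nonneg (hW0 r j)
          (inv_nonneg.2 (hω r j).le)) (hI0 r))
      calc _ ≤ (2 * K * τ j) * ∑ r ∈ Finset.range (R + 1),
          2 * min (τ j) ((2⁻¹ : ℝ) ^ r) * (2 ^ r * τ j) ^ (-ε) * I r :=
            mul_le_mul a1 a2 a2' (by positivity)
        _ = _ := by
          rw [Finset.mul_sum]
          apply Finset.sum_congr rfl
          intro r _
          ring
    refine (Finset.sum_le_sum hstep).trans (le_of_eq ?_)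
    rw [Finset.sum_comm, hT]
    apply Finset.sum_congr rfl
    intro r _
    rw [← Finset.sum_mul, ← Finset.mul_sum]
  -- Chebyshev
  have hcov : {z : ℝ × ℝ | ∃ k : ℤ, lam < |∑ r ∈ Finset.range (R + 1),
        ∑ n ∈ nearS τ Nm r, Vc τ m₀ k n (Lv g lam r) (z - (2 : ℝ) ^ k • P)|} =
      ⋃ k : ℤ, {z : ℝ × ℝ | lam < |∑ r ∈ Finset.range (R + 1),
        ∑ n ∈ nearS τ Nm r, Vc τ m₀ k n (Lv g lam r) (z - (2 : ℝ) ^ k • P)|} := by
    ext z
    simp only [Set.mem_setOf_eq, Set.mem_iUnion]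
  have hk : ∀ k : ℤ, volume {z : ℝ × ℝ | lam < |∑ r ∈ Finset.range (R + 1),
        ∑ n ∈ nearS τ Nm r, Vc τ m₀ k n (Lv g lam r) (z - (2 : ℝ) ^ k • P)|} ≤
      (ENNReal.ofReal (lam ^ 2))⁻¹ * ∫⁻ z, ‖∑ r ∈ Finset.range (R + 1),
        ∑ n ∈ nearS τ Nm r, Vc τ m₀ k n (Lv g lam r) z‖ₑ ^ 2 := by
    intro k
    refine near_cheb (fun z => ∑ r ∈ Finset.range (R + 1),
      ∑ n ∈ nearS τ Nm r, Vc τ m₀ k n (Lv g lam r) z) ?_ lam hl ((2 : ℝ) ^ k • P)
    exact Finset.measurable_sum _ (fun r _ => Finset.measurable_sum _ (fun n _ => hVc n k r))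
  rw [hcov]
  calc volume (⋃ k : ℤ, {z : ℝ × ℝ | lam < |∑ r ∈ Finset.range (R + 1),
        ∑ n ∈ nearS τ Nm r, Vc τ m₀ k n (Lv g lam r) (z - (2 : ℝ) ^ k • P)|})
      ≤ ∑' k : ℤ, volume {z : ℝ × ℝ | lam < |∑ r ∈ Finset.range (R + 1),
        ∑ n ∈ nearS τ Nm r, Vc τ m₀ k n (Lv g lam r) (z - (2 : ℝ) ^ k • P)|} :=
        measure_iUnion_le _
    _ ≤ ∑' k : ℤ, (ENNReal.ofReal (lam ^ 2))⁻¹ * ∫⁻ z, ‖∑ r ∈ Finset.range (R + 1),
        ∑ n ∈ nearS τ Nm r, Vc τ m₀ k n (Lv g lam r) z‖ₑ ^ 2 := ENNReal.tsum_le_tsum hk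
    _ = (ENNReal.ofReal (lam ^ 2))⁻¹ * ∑' k : ℤ, ∫⁻ z, ‖∑ r ∈ Finset.range (R + 1),
        ∑ n ∈ nearS τ Nm r, Vc τ m₀ k n (Lv g lam r) z‖ₑ ^ 2 := ENNReal.tsum_mul_left
    _ ≤ (ENNReal.ofReal (lam ^ 2))⁻¹ * ENNReal.ofReal T := by
        gcongr
        exact hLL'.trans (ENNReal.ofReal_le_ofReal hbound)
    _ = ENNReal.ofReal ((lam ^ 2)⁻¹ * T) := by
        rw [ENNReal.ofReal_mul (by positivity), ENNReal.ofReal_inv_of_pos (by positivity)]
    _ = ∑ r ∈ Finset.range (R + 1), ENNReal.ofReal (4 * K * (lam ^ 2)⁻¹ *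
        ∑ j ∈ Finset.range Nm, τ j * (min (τ j) ((2⁻¹ : ℝ) ^ r) * (2 ^ r * τ j) ^ (-ε))) *
          ENNReal.ofReal (I r) := by
        rw [hT, Finset.mul_sum, ENNReal.ofReal_sum_of_nonneg]
        · apply Finset.sum_congr rfl
          intro r _
          rw [← ENNReal.ofReal_mul]
          · congr 1
            ring
          · refine mul_nonneg (by positivity) (Finset.sum_nonneg (fun j _ => ?_))
            have := hτ j
            positivity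
        · intro r _
          refine mul_nonneg (by positivity) (mul_nonneg (mul_nonneg (by positivity)
            (Finset.sum_nonneg (fun j _ => ?_))) (hI0 r))
          have := hτ j
          positivity
    _ ≤ _ := by
        apply Finset.sum_le_sum
        intro r _
        gcongr
        exact hIle r

end Pool.Agent.Helper79.LM2
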